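import Pool.Agent.H62.CNH.HabAr

/-!
# Row HAB: the theorem of Hasse and Arf
-/

set_option autoImplicit false

namespace Pool.CND

open Finset

theorem hab_split {G : Type} [Group G] [Fintype G] (A N : Subgroup G) (hN : N ≤ A) (f : G → ℤ) :
    sm f A = sm f {g | g ∈ A ∧ g ∉ N} + sm f N := by
  classical
  unfold sm
  rw [← sum_union]
  · apply sum_congr _ (fun _ _ => rfl)
    ext g
    rw [mem_union, hab_mem, hab_mem, hab_mem]
    constructor
    · intro h
      by_cases h2 : g ∈ N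
      · exact Or.inr h2
      · exact Or.inl ⟨h, h2⟩
    · rintro (h | h)
      · exact h.1
      · exact hN h
  · rw [disjoint_left]
    intro g h1 h2
    rw [hab_mem] at h1 h2
    exact h1.2 h2

theorem hab_card {G : Type} [Group G] [Fintype G] (A : Subgroup G) (c : ℤ) :
    sm (fun _ => c) (A : Set G) = Nat.card A * c := by
  unfold sm
  rw [sum_const, nsmul_eq_mul]
  congr 2
  exact (Nat.subtype_card _ (fun x => hab_mem (A : Set G) x)).symm

theorem hab_thm (hABC : S_ABC) (hFXP : S_FXP) (hRST : S_RST) (hART : S_ART) (hHER : S_HER)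
    (hHCY : S_HCY) (hUQT : S_UQT) (hHSD : S_HSD) (hLON : S_LON) (hINJ : S_INJ) (hUMW : S_UMW)
    (hWLD : S_WLD) (_hSUB : S_SUB) : S_HAB := by
  intro p k L G _ _ _ _ _ P ρ W A l hp hch hinj hW hAW hcomm hl
  haveI : Fact p.Prime := ⟨hp⟩
  obtain ⟨g₀, hg₀A, hg₀1, hg₀l⟩ := hl.mem
  obtain ⟨N, hNA, hg₀N, h, hh, hcyc⟩ := hABC G A hcomm g₀ hg₀A hg₀1
  have hfixA : ∀ a ∈ A, Fixes P (ρ a) := by
    intro a ha
    have h1 : a ∈ (W : Set G) := hAW ha
    rw [hW] at h1
    exact h1.1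
  obtain ⟨F, hF, Q, hQ⟩ := hFXP k L G P ρ N hinj (fun n hn => hfixA n (hNA hn))
  have hconj : ∀ g ∈ A, ∀ n ∈ N, g * n * g⁻¹ ∈ N := by
    intro g hg n hn
    rw [hcomm g hg n (hNA hn), mul_assoc, mul_inv_cancel, mul_one]
    exact hn
  obtain ⟨γ, hγ, hγfix⟩ := hRST k L G P ρ N F Q h hF hQ (hconj h hh)
    (fun n hn => by
      have := hconj h⁻¹ (inv_mem hh) n hn
      rwa [inv_inv] at this) (hfixA h hh)
  have hγj : ∀ (j : ℕ) (x : F), (((γ ^ j) x : F) : L) = ρ (h ^ j) x := by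
    intro j
    induction j with
    | zero => intro x; simp
    | succ j ih =>
      intro x
      rw [pow_succ', pow_succ', map_mul, AlgEquiv.mul_apply, AlgEquiv.mul_apply, hγ, ih]
  have hmem : ∀ j : ℕ, h ^ j ∈ N ↔ γ ^ j = 1 := by
    intro j
    constructor
    · intro hj
      ext x
      rw [hγj]
      exact (hF x).mp x.2 _ hj
    · intro hj
      apply hART k L G ρ N (h ^ j) hinj
      intro x hx
      have h1 := hγj j ⟨x, (hF x).mpr hx⟩
      rw [hj] at h1
      exact h1.symm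
  set e := orderOf γ with he
  have he0 : 0 < e := by
    rw [he, orderOf_pos_iff, isOfFinOrder_iff_pow_eq_one]
    refine ⟨Fintype.card G, Fintype.card_pos, ?_⟩
    rw [← hmem, pow_card_eq_one]
    exact one_mem _
  have hhe : h ^ e ∈ N := (hmem e).mpr (pow_orderOf_eq_one γ)
  have hj : ∀ j j', j < e → j' < e → h ^ j * (h ^ j')⁻¹ ∈ N → j = j' := by
    have key : ∀ j j', j ≤ j' → j < e → j' < e → h ^ j' * (h ^ j)⁻¹ ∈ N → j = j' := by
      intro j j' hle h1 h2 h3
      have h4 : h ^ (j' - j) ∈ N := by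
        have : h ^ j' * (h ^ j)⁻¹ = h ^ (j' - j) := by
          conv_lhs => rw [← Nat.sub_add_cancel hle, pow_add]
          group
        rw [← this]
        exact h3
      rw [hmem] at h4
      have h5 := orderOf_dvd_of_pow_eq_one h4
      rw [← he] at h5
      have h6 := Nat.eq_zero_of_dvd_of_lt h5 (by omega)
      omega
    intro j j' h1 h2 h3
    rcases le_total j j' with hle | hle
    · apply key j j' hle h1 h2
      have h4 := inv_mem h3
      rw [mul_inv_rev, inv_inv] at h4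
      exact h4
    · exact (key j' j hle h2 h1 h3).symm
  have hcov : ∀ a ∈ A, ∃ j < e, (h ^ j)⁻¹ * a ∈ N := by
    intro a ha
    obtain ⟨j, hj1⟩ := hcyc a ha
    refine ⟨j % e, Nat.mod_lt _ he0, ?_⟩
    have h1 : h ^ j = h ^ (j % e) * (h ^ e) ^ (j / e) := by
      rw [← pow_mul, ← pow_add, Nat.mod_add_div]
    have h2 : (h ^ (j % e))⁻¹ * a = (h ^ e) ^ (j / e) * (a * (h ^ j)⁻¹) := by
      have h3 : a * (h ^ j)⁻¹ = (h ^ j)⁻¹ * a := hcomm _ ha _ (inv_mem (pow_mem hh _))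
      rw [h3, h1, mul_inv_rev]
      group
    rw [h2]
    exact mul_mem (pow_mem hhe _) hj1
  have hsumf := fun f => hab_sum A N h e hNA hh hj hcov hcomm f
  -- the order of `A`
  have hcardA : (Nat.card A : ℤ) = Nat.card N * e := by
    have h1 := hab_split A N hNA (fun _ => 1)
    rw [hsumf, hab_card, hab_card, sum_const, Nat.card_Ico, nsmul_eq_mul] at h1
    push_cast [Nat.cast_sub (show 1 ≤ e from he0)] at h1
    linear_combination h1
  have hcardA' : Nat.card A = Nat.card N * e := by exact_mod_cast hcardA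
  obtain ⟨W', I', hW', _, _, ⟨n0, hn0⟩, _⟩ := hWLD p k L G P ρ hp hch hinj
  have hWW : W' = W := SetLike.coe_injective (hW'.trans hW.symm)
  rw [hWW] at hn0
  have hedvd : e ∣ p ^ n0 := by
    rw [← hn0]
    exact (Dvd.intro_left _ hcardA'.symm).trans (Subgroup.card_dvd_of_le hAW)
  obtain ⟨r, -, hr⟩ := (Nat.dvd_prime_pow hp).mp hedvd
  have hr0 : r ≠ 0 := by
    rintro rfl
    rw [pow_zero] at hr
    apply hg₀N
    obtain ⟨j, hj1, hj2⟩ := hcov g₀ hg₀A
    have h1 : j = 0 := by omega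
    subst h1
    simpa using hj2
  obtain ⟨r', rfl⟩ := Nat.exists_eq_succ_of_ne_zero hr0
  rw [Nat.succ_eq_add_one] at hr
  have hNc : (Nat.card N : ℤ) ≠ 0 := by
    have : Nat.card N ≠ 0 := Nat.card_pos.ne'
    exact_mod_cast this
  let i : ℕ → ℤ := fun m => Q.b (γ ^ (p ^ m))
  have hCY := hHCY p k F Q γ r' hp hγfix (he ▸ hr)
  let bρ : G → ℤ := fun g => P.b (ρ g)
  let B : G → ℤ := fun g => (sm bρ {x | g⁻¹ * x ∈ N}) / (Nat.card N : ℤ)
  have hB0 : ∀ (j : ℕ) (n : G), n ∈ N → h ^ j * n ∉ N →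
      sm bρ {x | (h ^ j * n)⁻¹ * x ∈ N} = Nat.card N * Q.b (γ ^ j) := by
    intro j n hn hg
    apply hHER k L G P ρ N F Q (h ^ j * n) (γ ^ j) hinj (fun n hn => hfixA n (hNA hn)) hF hQ hg
      (hfixA _ (mul_mem (pow_mem hh _) (hNA hn)))
    · intro x
      rw [hγj, map_mul, AlgEquiv.mul_apply]
      congr 1
      exact ((hF x).mp x.2 n hn).symm
    · exact hγfix.pow j
    · intro h1
      apply hg
      exact mul_mem ((hmem j).mpr h1) hn
  have hBval : ∀ (j : ℕ) (n : G), n ∈ N → h ^ j * n ∉ N → B (h ^ j * n) = Q.b (γ ^ j) := by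
    intro j n hn hg
    show (sm bρ {x | (h ^ j * n)⁻¹ * x ∈ N}) / (Nat.card N : ℤ) = _
    rw [hB0 j n hn hg, Int.mul_ediv_cancel_left _ hNc]
  have hrep : ∀ a ∈ A, ∃ (j : ℕ) (n : G), j < e ∧ n ∈ N ∧ a = h ^ j * n := by
    intro a ha
    obtain ⟨j, hj1, hj2⟩ := hcov a ha
    exact ⟨j, _, hj1, hj2, by group⟩
  have hUM := hUMW k L G P ρ W hinj hW
  have hUMA : UM bρ A :=
    ⟨fun g hg => hUM.pos g (hAW hg), fun g hg => hUM.inv g (hAW hg),
      fun g hg g' hg' => hUM.mul g (hAW hg) g' (hAW hg')⟩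
  obtain ⟨hmax, hU⟩ := hUQT G bρ B N A l g₀ hUMA hNA hconj (by
    intro g hg hgN
    obtain ⟨j, n, -, hn, rfl⟩ := hrep g hg
    rw [hB0 j n hn hgN, hBval j n hn hgN]) hl hg₀A hg₀N hg₀l
  -- values
  have hgen : ∀ j, 1 ≤ j → j < e → Q.b (γ ^ j) = i (padicValNat p j) := by
    intro j h1 h2
    exact hab_gen hLON hINJ Q γ hγfix hp (he ▸ hr) h1 (hr ▸ h2)
  have hγ1 : γ ^ (p ^ r') ≠ 1 := by
    apply pow_ne_one_of_lt_orderOf (pow_ne_zero _ hp.ne_zero)
    rw [← he, hr]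
    exact Nat.pow_lt_pow_right hp.one_lt (Nat.lt_succ_self _)
  have hi_le : ∀ v, v ≤ r' → i v ≤ i r' := by
    intro v hv
    have h1 : γ ^ (p ^ r') = (γ ^ (p ^ v)) ^ (p ^ (r' - v)) := by
      rw [← pow_mul, ← pow_add, Nat.add_sub_cancel' hv]
    have h2 : γ ^ (p ^ v) ≠ 1 := by
      intro h3
      rw [h1, h3, one_pow] at hγ1
      exact hγ1 rfl
    show Q.b (γ ^ (p ^ v)) ≤ Q.b (γ ^ (p ^ r'))
    rw [h1]
    exact sam_mono hLON hINJ Q _ (hγfix.pow _) h2 _ (h1 ▸ hγ1)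
  have hBg₀ : B g₀ = i r' := by
    apply le_antisymm
    · obtain ⟨j, n, hj1, hn, hg⟩ := hrep g₀ hg₀A
      have hgN' : h ^ j * n ∉ N := hg ▸ hg₀N
      have hj0 : 1 ≤ j := by
        by_contra h0
        have : j = 0 := by omega
        subst this
        apply hgN'
        simpa using hn
      rw [hg, hBval j n hn hgN', hgen j hj0 hj1]
      apply hi_le
      have h1 : p ^ padicValNat p j ≤ j :=
        Nat.le_of_dvd hj0 pow_padicValNat_dvd
      have h2 : p ^ padicValNat p j < p ^ (r' + 1) := by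
        rw [← hr]
        omega
      have h3 := (Nat.pow_lt_pow_iff_right hp.one_lt).mp h2
      omega
    · have h1 : h ^ (p ^ r') ∉ N := fun hc => hγ1 ((hmem _).mp hc)
      have h2 := hmax (h ^ (p ^ r')) (pow_mem hh _) h1
      have h3 := hBval (p ^ r') 1 (one_mem _) (by rwa [mul_one])
      rw [mul_one] at h3
      rw [h3] at h2
      exact h2
  have hsumB : sm B {g | g ∈ A ∧ g ∉ N} = Nat.card N * ∑ j ∈ Ico 1 e, i (padicValNat p j) := by
    rw [hsumf, mul_sum]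
    refine sum_congr rfl fun j hj1 => ?_
    rw [mem_Ico] at hj1
    have h1 : ∀ n ∈ N, B (h ^ j * n) = i (padicValNat p j) := by
      intro n hn
      rw [← hgen j hj1.1 hj1.2]
      apply hBval j n hn
      intro hc
      have h2 : h ^ j ∈ N := by
        have := mul_mem hc (inv_mem hn)
        simpa using this
      have h3 := hj j 0 hj1.2 he0 (by simpa using h2)
      omega
    have h2 : sm (fun n => B (h ^ j * n)) (N : Set G) =
        sm (fun _ => i (padicValNat p j)) (N : Set G) := by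
      unfold sm
      refine sum_congr rfl fun n hn => ?_
      rw [hab_mem] at hn
      exact h1 n hn
    rw [h2, hab_card]
  obtain ⟨z, hz⟩ := hab_arith p i r' hCY
  have hsd := hHSD p (r' + 1) i hp
  rw [← hr] at hsd
  rw [hsumB, hBg₀, hsd] at hU
  refine ⟨z, ?_⟩
  have h1 : (Nat.card A : ℚ) = Nat.card N * (p ^ (r' + 1) : ℕ) := by
    rw [hcardA', hr]
    push_cast
    ring
  have h2 : ((i r' + ∑ j ∈ range (r' + 1), (((p ^ (r' + 1 - j) : ℕ) : ℤ) -
      ((p ^ (r' + 1 - j - 1) : ℕ) : ℤ)) * i j : ℤ) : ℚ) = (((p ^ (r' + 1) : ℕ) : ℤ) * z : ℤ) := by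
    rw [hz]
  have h3 : ((Nat.card N : ℕ) : ℚ) ≠ 0 := by exact_mod_cast hNc
  have h4 : (((p ^ (r' + 1) : ℕ)) : ℚ) ≠ 0 := by
    have : p ^ (r' + 1) ≠ 0 := pow_ne_zero _ hp.ne_zero
    exact_mod_cast this
  rw [h1] at hU
  have h5 : (Nat.card N : ℚ) * (p ^ (r' + 1) : ℕ) * U bρ A l =
      Nat.card N * (p ^ (r' + 1) : ℕ) * z := by
    rw [hU]
    push_cast at h2 ⊢
    linear_combination (Nat.card N : ℚ) * h2
  exact mul_left_cancel₀ (mul_ne_zero h3 h4) h5

end Pool.CND
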