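import Pool.Agent.H37.CNH.Stmts
import Pool.Agent.H1.CND.SAM

/-!
# Row HAB, part 1: generators and arithmetic
-/

set_option autoImplicit false

namespace Pool.CND

open Finset

theorem hab_gen (h1 : S_LON) (h2 : S_INJ) {k L : Type} [Field k] [Field L] [Algebra k L]
    (P : Place k L) (γ : L ≃ₐ[k] L) (hγ : Fixes P γ) {p r j : ℕ} (hp : p.Prime)
    (ho : orderOf γ = p ^ r) (hj1 : 1 ≤ j) (hj : j < p ^ r) :
    P.b (γ ^ j) = P.b (γ ^ (p ^ (padicValNat p j))) := by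
  haveI : Fact p.Prime := ⟨hp⟩
  set v := padicValNat p j with hv
  obtain ⟨j', hj'⟩ := (pow_padicValNat_dvd : p ^ padicValNat p j ∣ j)
  rw [← hv] at hj'
  have hnd : ¬ p ∣ j' := by
    rintro ⟨c, rfl⟩
    have h3 : p ^ (padicValNat p j + 1) ∣ j := by
      rw [← hv]
      exact ⟨c, by rw [pow_succ, mul_assoc]; exact hj'⟩
    exact pow_succ_padicValNat_not_dvd (by omega) h3
  have hle : p ^ v ≤ j := Nat.le_of_dvd (by omega) ⟨j', hj'⟩
  have hσ1 : γ ^ (p ^ v) ≠ 1 := by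
    apply pow_ne_one_of_lt_orderOf (pow_ne_zero _ hp.ne_zero)
    rw [ho]
    omega
  have hγj : γ ^ j = (γ ^ (p ^ v)) ^ j' := by
    rw [← pow_mul, ← hj']
  have hj1' : γ ^ j ≠ 1 := by
    apply pow_ne_one_of_lt_orderOf (by omega)
    rw [ho]
    exact hj
  have hcop : Nat.Coprime j' (p ^ r) :=
    Nat.Coprime.pow_right r ((Nat.Prime.coprime_iff_not_dvd hp).2 hnd).symm
  have hgt : 1 < p ^ r := by omega
  obtain ⟨m, -, hm⟩ := Nat.exists_mul_mod_eq_one_of_coprime hcop hgt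
  have e1 : ((γ ^ (p ^ v)) ^ j') ^ m = γ ^ (p ^ v) := by
    rw [← pow_mul]
    have e2 : (γ ^ (p ^ v)) ^ (p ^ r) = 1 := by
      rw [← pow_mul, mul_comm, pow_mul, ← ho, pow_orderOf_eq_one, one_pow]
    calc (γ ^ (p ^ v)) ^ (j' * m) =
        (γ ^ (p ^ v)) ^ (j' * m % p ^ r + p ^ r * (j' * m / p ^ r)) := by rw [Nat.mod_add_div]
      _ = γ ^ (p ^ v) := by rw [pow_add, pow_mul (γ ^ (p ^ v)) (p ^ r), e2, one_pow, mul_one, hm, pow_one]
  have hfix : Fixes P (γ ^ (p ^ v)) := hγ.pow _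
  rw [hγj]
  rw [hγj] at hj1'
  refine le_antisymm ?_ (sam_mono h1 h2 P _ hfix hσ1 j' hj1')
  have h3 := sam_mono h1 h2 P _ (hfix.pow j') hj1' m (by rw [e1]; exact hσ1)
  rw [e1] at h3
  exact h3

theorem hab_arith (p : ℕ) (i : ℕ → ℤ) (r : ℕ)
    (hi : ∀ j, 1 ≤ j → j ≤ r → ((p ^ j : ℕ) : ℤ) ∣ i j - i (j - 1)) :
    ((p ^ (r + 1) : ℕ) : ℤ) ∣ i r + ∑ j ∈ range (r + 1),
      (((p ^ (r + 1 - j) : ℕ) : ℤ) - ((p ^ (r + 1 - j - 1) : ℕ) : ℤ)) * i j := by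
  induction r with
  | zero =>
    refine ⟨i 0, ?_⟩
    simp
    ring
  | succ r ih =>
    obtain ⟨c, hc⟩ := ih (fun j h1 h2 => hi j h1 (by omega))
    obtain ⟨d, hd⟩ := hi (r + 1) (by omega) le_rfl
    rw [Nat.add_sub_cancel] at hd
    refine ⟨c + d, ?_⟩
    rw [sum_range_succ]
    have e1 : ∑ j ∈ range (r + 1), (((p ^ (r + 1 + 1 - j) : ℕ) : ℤ) -
        ((p ^ (r + 1 + 1 - j - 1) : ℕ) : ℤ)) * i j = (p : ℤ) * ∑ j ∈ range (r + 1),
        (((p ^ (r + 1 - j) : ℕ) : ℤ) - ((p ^ (r + 1 - j - 1) : ℕ) : ℤ)) * i j := by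
      rw [mul_sum]
      refine sum_congr rfl fun j hj => ?_
      rw [mem_range] at hj
      have a1 : r + 1 + 1 - j = (r + 1 - j) + 1 := by omega
      have a2 : r + 1 + 1 - j - 1 = (r + 1 - j - 1) + 1 := by omega
      rw [a2, a1, pow_succ, pow_succ]
      push_cast
      ring
    have a3 : r + 1 + 1 - (r + 1) = 1 := by omega
    have a4 : r + 1 + 1 - (r + 1) - 1 = 0 := by omega
    rw [e1, a4, a3, pow_zero, pow_one]
    have hc' : ∑ j ∈ range (r + 1),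
        (((p ^ (r + 1 - j) : ℕ) : ℤ) - ((p ^ (r + 1 - j - 1) : ℕ) : ℤ)) * i j =
        ((p ^ (r + 1) : ℕ) : ℤ) * c - i r := by linear_combination hc
    rw [hc']
    push_cast
    push_cast at hd
    linear_combination (p : ℤ) * hd

open scoped Classical in
theorem hab_mem {G : Type} [Fintype G] (T : Set G) (g : G) :
    g ∈ univ.filter (fun g => g ∈ T) ↔ g ∈ T := by
  simp

/-- the cosets `h ^ j N`, `1 ≤ j < e`, fill `A \ N` -/
theorem hab_sum {G : Type} [Group G] [Fintype G] (A N : Subgroup G) (h : G) (e : ℕ) (hN : N ≤ A)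
    (hh : h ∈ A) (hj : ∀ j j', j < e → j' < e → h ^ j * (h ^ j')⁻¹ ∈ N → j = j')
    (hcov : ∀ a ∈ A, ∃ j < e, (h ^ j)⁻¹ * a ∈ N) (hcomm : ∀ a ∈ A, ∀ b ∈ A, a * b = b * a)
    (f : G → ℤ) : sm f {g | g ∈ A ∧ g ∉ N} = ∑ j ∈ Ico 1 e, sm (fun n => f (h ^ j * n)) N := by
  choose! J hJ1 hJ2 using hcov
  unfold sm
  rw [← sum_product']
  symm
  refine sum_bij' (fun x _ => h ^ x.1 * x.2) (fun g _ => (J g, (h ^ J g)⁻¹ * g)) ?_ ?_ ?_ ?_ ?_
  · rintro ⟨j, n⟩ hx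
    rw [mem_product, mem_Ico, hab_mem] at hx
    obtain ⟨⟨hj1, hj2⟩, hn⟩ := hx
    have hn' : n ∈ N := hn
    rw [hab_mem]
    refine ⟨mul_mem (pow_mem hh _) (hN hn'), fun hc => ?_⟩
    have h1 : h ^ j ∈ N := by
      have := mul_mem hc (inv_mem hn')
      simpa using this
    have h2 := hj j 0 hj2 (by omega) (by simpa using h1)
    have h3 : 1 ≤ j := hj1
    omega
  · intro g hg
    rw [hab_mem] at hg
    obtain ⟨hgA, hgN⟩ := hg
    rw [mem_product, mem_Ico, hab_mem]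
    refine ⟨⟨?_, hJ1 g hgA⟩, hJ2 g hgA⟩
    by_contra h0
    have h1 : J g = 0 := by
      have : ¬ 1 ≤ J g := h0
      omega
    have h2 := hJ2 g hgA
    rw [h1] at h2
    apply hgN
    simpa using h2
  · rintro ⟨j, n⟩ hx
    rw [mem_product, mem_Ico, hab_mem] at hx
    obtain ⟨⟨hj1, hj2⟩, hn⟩ := hx
    have hn' : n ∈ N := hn
    have hgA : h ^ j * n ∈ A := mul_mem (pow_mem hh _) (hN hn')
    have hjj : J (h ^ j * n) = j := by
      apply hj _ _ (hJ1 _ hgA) hj2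
      have h1 := mul_mem hn' (inv_mem (hJ2 _ hgA))
      have h2 : n * ((h ^ J (h ^ j * n))⁻¹ * (h ^ j * n))⁻¹ = h ^ J (h ^ j * n) * (h ^ j)⁻¹ := by
        have h3 : n * ((h ^ J (h ^ j * n))⁻¹ * (h ^ j * n))⁻¹ =
          (h ^ j)⁻¹ * h ^ J (h ^ j * n) := by group
        rw [h3]
        exact hcomm _ (inv_mem (pow_mem hh _)) _ (pow_mem hh _)
      rw [h2] at h1
      exact h1
    refine Prod.ext hjj ?_
    show (h ^ J (h ^ j * n))⁻¹ * (h ^ j * n) = n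
    rw [hjj]
    group
  · intro g hg
    show h ^ J g * ((h ^ J g)⁻¹ * g) = g
    group
  · rintro ⟨j, n⟩ _
    rfl

end Pool.CND
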